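import Pool.Agent.H56.BD.StmtsT

set_option autoImplicit false

namespace Pool.BD

open Relation

namespace RED

variable {V : Type} {G : SimpleGraph V} {rk : V → ℕ} {q0 : V} {L : Ct V} {ρ : V → V}
  {t : V → ℤ} {R : V → Ct V}

theorem dw_rank (h : NS G rk q0 L ρ t) {x z : V} (hd : Dw G rk q0 ρ x z) : rk x < rk z := by
  obtain ⟨h1, h2, h3⟩ := hd
  rw [← h3]
  exact (h.rU z h1 h2).2.1

theorem rtg_rank (h : NS G rk q0 L ρ t) {x z : V} (hd : ReflTransGen (Dw G rk q0 ρ) x z) :
    rk x ≤ rk z := by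
  induction hd with
  | refl => exact le_rfl
  | tail _ h2 ih => exact ih.trans (dw_rank h h2).le

theorem tg_rank (h : NS G rk q0 L ρ t) {x z : V} (hd : TransGen (Dw G rk q0 ρ) x z) :
    rk x < rk z := by
  obtain ⟨y, h1, h2⟩ := TransGen.tail'_iff.1 hd
  exact lt_of_le_of_lt (rtg_rank h h1) (dw_rank h h2)

theorem root_rtg (h : NS G rk q0 L ρ t) :
    ∀ b, Re G rk q0 b → ReflTransGen (Dw G rk q0 ρ) q0 b := by
  have key : ∀ n, ∀ b, rk b = n → Re G rk q0 b → ReflTransGen (Dw G rk q0 ρ) q0 b := by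
    intro n
    induction n using Nat.strong_induction_on with
    | _ n ih =>
      intro b hn hb
      by_cases hq : b = q0
      · subst hq; exact ReflTransGen.refl
      · have h1 := h.rU b hb hq
        exact ReflTransGen.tail (ih (rk (ρ b)) (by omega) (ρ b) rfl h1.1) ⟨hb, hq, rfl⟩
  exact fun b hb => key _ b rfl hb

theorem su_q0 (h : NS G rk q0 L ρ t) {b : V} (hb : Re G rk q0 b) : b ∈ SU G rk q0 L t q0 := by
  by_cases hq : b = q0
  · exact ⟨hb, Or.inl hq⟩
  · have h1 := root_rtg h b hb
    rcases ReflTransGen.cases_head h1 with h2 | ⟨z, h2, h3⟩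
    · exact absurd h2.symm hq
    · exact ((h.anc q0 b (Or.inl rfl)).2 (TransGen.head' h2 h3)).1

theorem nd_mem (h : NS G rk q0 L ρ t) {y : V} (hy : Nd G rk q0 ρ y) : Re G rk q0 y := by
  rcases hy with rfl | ⟨b, hb, hq, rfl⟩
  · exact ReflTransGen.refl
  · exact (h.rU b hb hq).1

theorem su_reach (h : Nodes G rk q0 L ρ t R) {y b : V} (hy : Nd G rk q0 ρ y)
    (hb : b ∈ SU G rk q0 L t y) : Re G rk y b := by
  have h1 := h.nh y hy
  exact Anc.reach h1.ok.isL h1.ok.parL (h1.ok.isL.root_anc h1.ok.parL b hb)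

/-- reachability does not leave a node -/
theorem su_up (h : Nodes G rk q0 L ρ t R) {y a b : V} (hy : Nd G rk q0 ρ y)
    (ha : a ∈ SU G rk q0 L t y) (hay : a ≠ y) (hab : Re G rk a b) :
    b ∈ SU G rk q0 L t y ∧ b ≠ y := by
  have h1 := h.nh y hy
  induction hab with
  | refl => exact ⟨ha, hay⟩
  | @tail c d _ h3 ih =>
    have h4 := h1.up c ih.1 ih.2 d h3
    refine ⟨h4, ?_⟩
    rintro rfl
    have h5 := Re.rank (su_reach h hy ih.1)
    have h6 := h3.2
    omega

theorem dw_reach (h : Nodes G rk q0 L ρ t R) {x z : V} (hd : Dw G rk q0 ρ x z) : Re G rk x z := by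
  have hn : Nd G rk q0 ρ x := Or.inr ⟨z, hd⟩
  exact su_reach h hn ((h.ns.anc x z hn).2 (TransGen.single hd)).1

theorem rtg_reach (h : Nodes G rk q0 L ρ t R) {x z : V} (hd : ReflTransGen (Dw G rk q0 ρ) x z) :
    Re G rk x z := by
  induction hd with
  | refl => exact ReflTransGen.refl
  | tail _ h2 ih => exact ReflTransGen.trans ih (dw_reach h h2)

theorem rtg_tg {x z : V} (hd : ReflTransGen (Dw G rk q0 ρ) x z) (hne : x ≠ z) :
    TransGen (Dw G rk q0 ρ) x z := by
  rcases reflTransGen_iff_eq_or_transGen.1 hd with h1 | h1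
  · exact absurd h1.symm hne
  · exact h1

/-- the step down: if `a` reaches `b` in the node `b'` but not `b'`, then `b'` is active or `a` is in
the node `b'` -/
theorem step (h : Nodes G rk q0 L ρ t R) {a b b' : V} (hb' : ReflTransGen (Dw G rk q0 ρ) b' b)
    (hab : Re G rk a b) (hn : ¬ Re G rk a b') :
    (b ∈ SU G rk q0 L t b' ∧ b ≠ b') ∧ (Act G rk q0 L ρ t a b' ∨
      (Re G rk q0 a ∧ TransGen (Dw G rk q0 ρ) b' a)) := by
  have hne : b' ≠ b := by
    rintro rfl
    exact hn hab
  have h1 := rtg_tg hb' hne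
  obtain ⟨c, h2, -⟩ := TransGen.head'_iff.1 h1
  have hnd : Nd G rk q0 ρ b' := Or.inr ⟨c, h2⟩
  have h3 := (h.ns.anc b' b hnd).2 h1
  refine ⟨h3, ?_⟩
  by_cases ha : a ∈ SU G rk q0 L t b'
  · right
    have hab' : a ≠ b' := by
      rintro rfl
      exact hn ReflTransGen.refl
    exact ⟨ha.1, (h.ns.anc b' a hnd).1 ⟨ha, hab'⟩⟩
  · exact Or.inl ⟨hnd, ha, hn, b, h3.1, h3.2, hab⟩

end RED

open RED Classical in
theorem red (hAC1 : AC1) (hAC2 : AC2) : RED := by
  intro V _ G rk q0 L ρ t R hmin hN
  have hns := hN.ns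
  -- the deepest active node
  have hdeep : ∀ a, (∃ y, Act G rk q0 L ρ t a y) →
      ∃ y, Act G rk q0 L ρ t a y ∧ ∀ y', Act G rk q0 L ρ t a y' → rk y' ≤ rk y := by
    intro a ha
    have hfin : (Set.Finite {y | Act G rk q0 L ρ t a y}) := Set.toFinite _
    obtain ⟨y, hy, hy'⟩ := hfin.exists_maximalFor rk _ ha
    refine ⟨y, hy, fun y' h' => ?_⟩
    by_contra hlt
    push Not at hlt
    have := hy' h' hlt.le
    omega
  let dp : V → Option V := fun a => if ha : ∃ y, Act G rk q0 L ρ t a y then
    some (hdeep a ha).choose else none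
  let s : V → Option V := fun a => if Re G rk q0 a then some (ρ a) else
    if h : ∃ y, dp a = some y ∧ y ≠ q0 then some (ρ h.choose) else none
  let act : V → Option V := fun a => if Re G rk q0 a then
    (if h : ∃ y, y ≠ q0 ∧ Act G rk q0 L ρ t a y then some h.choose else none) else dp a
  have hdp : ∀ a y, dp a = some y → Act G rk q0 L ρ t a y ∧
      ∀ y', Act G rk q0 L ρ t a y' → rk y' ≤ rk y := by
    intro a y hy
    simp only [dp] at hy
    split_ifs at hy with ha
    rw [Option.some.injEq] at hy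
    rw [← hy]
    exact (hdeep a ha).choose_spec
  have hdp2 : ∀ a, (∃ y, Act G rk q0 L ρ t a y) → ∃ y, dp a = some y := by
    intro a ha
    exact ⟨_, dif_pos ha⟩
  have hactU : ∀ a y, Re G rk q0 a → act a = some y → y ≠ q0 ∧ Act G rk q0 L ρ t a y := by
    intro a y ha hy
    simp only [act, if_pos ha] at hy
    split_ifs at hy with h1
    rw [Option.some.injEq] at hy
    rw [← hy]
    exact h1.choose_spec
  have hactU2 : ∀ a y, Re G rk q0 a → y ≠ q0 → Act G rk q0 L ρ t a y → act a = some y := by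
    intro a y ha hy hA
    have h1 : ∃ y, y ≠ q0 ∧ Act G rk q0 L ρ t a y := ⟨y, hy, hA⟩
    have h2 : act a = some h1.choose := by
      simp only [act, if_pos ha]
      exact dif_pos h1
    rw [h2, (hAC2 V G rk q0 L ρ t R hN a _ _ h1.choose_spec.1 hy h1.choose_spec.2 hA).2 ha]
  have hactN : ∀ a, ¬ Re G rk q0 a → act a = dp a := by
    intro a ha
    simp only [act, if_neg ha]
  have hsU : ∀ a, Re G rk q0 a → s a = some (ρ a) := by
    intro a ha
    simp only [s, if_pos ha]
  have hsN : ∀ a z, ¬ Re G rk q0 a → s a = some z → ∃ y, dp a = some y ∧ y ≠ q0 ∧ z = ρ y := by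
    intro a z ha hz
    simp only [s, if_neg ha] at hz
    split_ifs at hz with h1
    rw [Option.some.injEq] at hz
    exact ⟨h1.choose, h1.choose_spec.1, h1.choose_spec.2, hz.symm⟩
  have hsN2 : ∀ a y, ¬ Re G rk q0 a → dp a = some y → y ≠ q0 → s a = some (ρ y) := by
    intro a y ha hy hq
    have h1 : ∃ y, dp a = some y ∧ y ≠ q0 := ⟨y, hy, hq⟩
    simp only [s, if_neg ha]
    rw [dif_pos h1]
    have h2 : some y = some h1.choose := hy.symm.trans h1.choose_spec.1
    rw [Option.some.injEq] at h2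
    exact congrArg (fun v => some (ρ v)) h2.symm
  refine ⟨s, act, fun a haq => ⟨hsU a, ?_, ?_, ?_⟩⟩
  · intro y hy
    by_cases ha : Re G rk q0 a
    · have h1 := hactU a y ha hy
      exact ⟨h1.2, fun _ => ⟨h1.1, ((hAC1 V G rk q0 L ρ t R hN a y h1.1 h1.2).2 ha).symm⟩⟩
    · rw [hactN a ha] at hy
      exact ⟨(hdp a y hy).1, fun h => absurd h ha⟩
  · intro ha z hz
    obtain ⟨y, hy, hyq, rfl⟩ := hsN a z ha hz
    have hA := (hdp a y hy).1
    have h1 := hAC1 V G rk q0 L ρ t R hN a y hyq hA
    have hyU := nd_mem hns hA.1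
    have hρ := hns.rU y hyU hyq
    refine ⟨Or.inr ⟨y, hyU, hyq, rfl⟩, fun h => ha h.1, fun h => (h1.1 _ h hρ.1).2.2 rfl, ?_⟩
    obtain ⟨v, hv, -, hv2⟩ := hA.2.2.2
    have h2 := h1.1 v hv2 hv.1
    exact ⟨v, h2.2.1, h2.2.2, hv2⟩
  · intro b hb hbq hba
    refine ⟨?_, ?_⟩
    · intro y hy hby hbne b' hd hd'
      refine ⟨fun hab => ?_, fun hab' => ReflTransGen.trans hab' (rtg_reach hN hd')⟩
      by_contra hn
      obtain ⟨h1, h2⟩ := step hN hd' hab hn
      have hyb := dw_rank hns hd
      by_cases ha : Re G rk q0 a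
      · have h3 := hactU a y ha hy
        rcases h2 with h2 | ⟨-, h2⟩
        · have h4 := (hAC2 V G rk q0 L ρ t R hN a y b' h3.1 hd.2.1 h3.2 h2).2 ha
          rw [h4] at hyb
          omega
        · exact h3.2.2.1 ((hns.anc y a h3.2.1).2 (TransGen.head hd h2)).1
      · rw [hactN a ha] at hy
        rcases h2 with h2 | ⟨h2, -⟩
        · have := (hdp a y hy).2 b' h2
          omega
        · exact ha h2
    · intro hno
      refine ⟨?_, ?_⟩
      · intro z hz hbz hbne b' hd hd'
        refine ⟨fun hab => ?_, fun hab' => ReflTransGen.trans hab' (rtg_reach hN hd')⟩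
        by_contra hn
        obtain ⟨h1, h2⟩ := step hN hd' hab hn
        have hzb := dw_rank hns hd
        by_cases ha : Re G rk q0 a
        · rcases h2 with h2 | ⟨-, h2⟩
          · exact hno ⟨b', hactU2 a b' ha hd.2.1 h2, h1.1, h1.2⟩
          · rw [hsU a ha, Option.some.injEq] at hz
            obtain ⟨c, h3, h4⟩ := TransGen.tail'_iff.1 h2
            have h5 : c = ρ a := h4.2.2.symm
            subst h5
            have := rtg_rank hns h3
            rw [hz] at this
            omega
        · rcases h2 with h2 | ⟨h2, -⟩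
          · obtain ⟨y, hy, hyq, rfl⟩ := hsN a z ha hz
            have hA := hdp a y hy
            have hyU := nd_mem hns hA.1.1
            have h3 := hA.2 b' h2
            have h4 : b' = y := by
              by_contra hne
              rcases (hAC2 V G rk q0 L ρ t R hN a b' y hd.2.1 hyq h2 hA.1).1 with h5 | h5
              · obtain ⟨c, h6, h7⟩ := TransGen.tail'_iff.1 (rtg_tg h5 hne)
                have h8 : c = ρ y := h7.2.2.symm
                subst h8
                have := rtg_rank hns h6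
                omega
              · have := tg_rank hns (rtg_tg h5 (Ne.symm hne))
                omega
            subst h4
            exact hno ⟨b', by rw [hactN a ha]; exact hy, h1.1, h1.2⟩
          · exact ha h2
      · intro hnos hab
        by_cases ha : Re G rk q0 a
        · have h1 := hns.rU a ha haq
          have hne : a ≠ ρ a := by
            intro h
            rw [← h] at h1
            omega
          have h2 := su_up hN (Or.inr ⟨a, ha, haq, rfl⟩) h1.2.2 hne hab
          exact hnos ⟨ρ a, hsU a ha, h2.1, h2.2⟩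
        · have hq : Act G rk q0 L ρ t a q0 := by
            refine ⟨Or.inl rfl, fun h => ha h.1, fun h => ?_, b, su_q0 hns hb, hbq, hab⟩
            have h1 := Re.rank h
            have h2 := hmin a haq
            omega
          obtain ⟨y, hy⟩ := hdp2 a ⟨q0, hq⟩
          have hA := (hdp a y hy).1
          by_cases hyq : y = q0
          · subst hyq
            exact hno ⟨y, by rw [hactN a ha]; exact hy, su_q0 hns hb, hbq⟩
          · have h1 := (hAC1 V G rk q0 L ρ t R hN a y hyq hA).1 b hab hb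
            exact hnos ⟨ρ y, hsN2 a y ha hy hyq, h1.2.1, h1.2.2⟩

end Pool.BD
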