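import Pool.Agent.H56.BD.StmtsT

set_option autoImplicit false

namespace Pool.BD

open Relation

namespace F2s

variable {V : Type} {G : SimpleGraph V} {rk : V → ℕ} {H : Set V} {q : V} {Q : Set V}

theorem nh_mir {L R : Ct V} (h : NH G rk H q Q L R) : NH G rk H q Q R.mir L.mir :=
  ⟨h.ok.mir, h.up, h.inj⟩

/-- everything reachable from a vertex which does not reach `b` is outside `D` -/
theorem reach_cn {b s y : V} (hs : ¬ Re G rk s b) (hy : Re G rk s y) :
    Cn G (Ds G rk H b)ᶜ s y := by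
  have hmem : ∀ u, Re G rk s u → u ∈ (Ds G rk H b)ᶜ := fun u hu h => hs (hu.trans h.2)
  refine ⟨hmem s ReflTransGen.refl, ?_⟩
  induction hy with
  | refl => exact ReflTransGen.refl
  | tail h1 h2 ih => exact ReflTransGen.tail ih ⟨h2.1, hmem _ (ReflTransGen.tail h1 h2)⟩

/-- the tree path to a vertex outside `D` leaves `D` -/
theorem leave {c : Ct V} (h : IsCt G H q Q c) (hr : ∀ v ∈ H, v ≠ q → rk (c.par v) < rk v) {b : V}
    (hb : b ∈ H) {w : V} (hw : w ∈ H) (hwD : w ∉ Ds G rk H b) :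
    ∃ z k, z ∈ Ds G rk H b ∧ k ∈ H ∧ k ∉ Ds G rk H b ∧ k ≠ q ∧ c.par k = z ∧ Anc H q c k w := by
  have hq : q ∈ Ds G rk H b := ⟨h.qH, Anc.reach h hr (h.root_anc hr b hb)⟩
  have key : ∀ x, Anc H q c x w → x ∈ Ds G rk H b →
      ∃ z k, z ∈ Ds G rk H b ∧ k ∈ H ∧ k ∉ Ds G rk H b ∧ k ≠ q ∧ c.par k = z ∧ Anc H q c k w := by
    intro x hx
    induction hx using ReflTransGen.head_induction_on with
    | refl => exact fun h => absurd h hwD
    | @head x y h1 h2 ih =>
      intro hxD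
      obtain ⟨h3, h4, h5⟩ := h1
      by_cases hy : y ∈ Ds G rk H b
      · exact ih hy
      · exact ⟨x, y, hxD, h3, hy, h4, h5, h2⟩
  exact key q (h.root_anc hr w hw) hq

/-- the left side of the path: a vertex outside `D` starting left of `b` is left of `b` -/
theorem left_of {c : Ct V} (h : IsCt G H q Q c) (hr : ∀ v ∈ H, v ≠ q → rk (c.par v) < rk v)
    {b u : V} (hb : b ∈ H) (hu : u ∈ H) (huD : u ∉ Ds G rk H b) (hlo : c.lo u ≤ c.lo b) :
    c.hi u < c.lo b := by
  have hlb := h.lh b hb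
  have hlu := h.lh u hu
  rcases h.tri hr u hu b hb with h1 | h1 | h1 | h1
  · exact absurd ⟨hu, Anc.reach h hr h1⟩ huD
  · by_cases hbu : b = u
    · subst hbu
      exact absurd ⟨hu, ReflTransGen.refl⟩ huD
    · have := h.anc_block h1 hbu
      omega
  · exact h1
  · omega

end F2s

open F2s in
theorem f2s (hRCL : RCL) (hK0 : K0) (hK1 : K1) (hK2 : K2) : F2s := by
  intro V _ G rk H q Q L R b hN hSp a haH haq w x hRg hL hR hv
  by_contra hab
  obtain ⟨v, hvH, hvq, hav, hvlo⟩ := hv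
  have iL := hN.ok.isL
  have iR := hN.ok.isR
  have pL := hN.ok.parL
  have pR := hN.ok.parR
  have hbH := hSp.1
  have hbq := hSp.2.1
  have hlb := iL.lh b hbH
  have hRlb := iR.lh b hbH
  have hout : ∀ u, Re G rk a u → u ∉ Ds G rk H b := fun u hu h => hab (hu.trans h.2)
  have hqD : q ∈ Ds G rk H b := ⟨iL.qH, Anc.reach iL pL (iL.root_anc pL b hbH)⟩
  have hnr : ∀ u ∈ H, u ∉ Ds G rk H b → ¬ Re G rk u b := fun u hu hn h => hn ⟨hu, h⟩
  -- `v` is left of `b`
  have hvD := hout v hav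
  have hvb : L.hi v < L.lo b := left_of iL pL hbH hvH hvD hvlo
  -- `w`
  obtain ⟨hwH, hwq, hxH, hax, hxw⟩ := hRg
  have haw : Re G rk a w := ReflTransGen.tail hax hxw
  have hwD := hout w haw
  have hlw := iL.lh w hwH
  have hRlw := iR.lh w hwH
  have hdL : L.lo w < L.pos w x ∧ L.pos w x < L.hi w := by
    refine iL.dn w x ⟨hwH, hxw.1.symm, fun h => absurd h hwq, fun _ h => hxH ?_⟩
    rw [h]
    exact (iL.par w hwH hwq).1
  have hdR : R.lo w < R.pos w x ∧ R.pos w x < R.hi w := by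
    refine iR.dn w x ⟨hwH, hxw.1.symm, fun h => absurd h hwq, fun _ h => hxH ?_⟩
    rw [h]
    exact (iR.par w hwH hwq).1
  have hwb : L.hi b < L.lo w := by
    rcases iL.tri pL w hwH b hbH with h1 | h1 | h1 | h1
    · exact absurd ⟨hwH, Anc.reach iL pL h1⟩ hwD
    · have := iL.anc_le h1
      omega
    · omega
    · exact h1
  have hbw : ¬ Re G rk b w := by
    intro h
    rcases (hRCL V G rk H q Q L R hN b hbH w hwH h).1 with h1 | h1
    · have := iL.anc_le h1
      omega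
    · omega
  have hRw : R.hi w < R.lo b := by
    rcases iR.tri pR w hwH b hbH with h1 | h1 | h1 | h1
    · exact absurd ⟨hwH, Anc.reach iR pR h1⟩ hwD
    · exact absurd (Anc.reach iR pR h1) hbw
    · exact h1
    · omega
  -- the dart `(z,c)` where the `R`-path to `w` leaves `D`
  obtain ⟨z, c, hzD, hcH, hcD, hcq, hcp, hcw⟩ := leave iR pR hbH hwH hwD
  have hzb : z ≠ b := by
    rintro rfl
    exact hbw (Anc.reach iR pR ((ReflTransGen.single ⟨hcH, hcq, hcp⟩ : Anc H q R z c).trans hcw))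
  have hcle := iR.anc_le hcw
  have hRc : R.hi c < R.lo b := by
    refine left_of iR pR hbH hcH hcD ?_
    omega
  have hcch := iR.ch c hcH hcq
  rw [hcp] at hcch
  have hzc : G.Adj z c := by
    have := (iR.par c hcH hcq).2
    rwa [hcp] at this
  have hrkzc : rk z < rk c := by
    have := pR c hcH hcq
    rwa [hcp] at this
  have hzcQ : z = q → c ∈ Q := by
    rintro rfl
    exact iR.QH c hcH hzc
  -- the dart `(z',c')` where the `L`-path to `v` leaves `D`
  obtain ⟨z', c', hzD', hcH', hcD', hcq', hcp', hcv'⟩ := leave iL pL hbH hvH hvD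
  have hcle' := iL.anc_le hcv'
  have hLc' : L.hi c' < L.lo b := by
    refine left_of iL pL hbH hcH' hcD' ?_
    omega
  have hcch' := iL.ch c' hcH' hcq'
  rw [hcp'] at hcch'
  have hzc' : G.Adj z' c' := by
    have := (iL.par c' hcH' hcq').2
    rwa [hcp'] at this
  have hrkzc' : rk z' < rk c' := by
    have := pL c' hcH' hcq'
    rwa [hcp'] at this
  have hzcQ' : z' = q → c' ∈ Q := by
    rintro rfl
    exact iL.QH c' hcH' hzc'
  have hanc' : Anc H q L z' b ∧ z' ≠ b := by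
    have h0 := (hK0 V G rk H q Q L R b hN hSp).1 z' hzD'
    have hlc' := iL.lh c' hcH'
    rcases iL.tri pL z' hzD'.1 b hbH with h1 | h1 | h1 | h1
    · refine ⟨h1, ?_⟩
      rintro rfl
      omega
    · have := iL.anc_le h1
      omega
    · exact absurd h1 h0
    · omega
  -- mirror `K2`
  have hSp' := hK1 V G rk H q Q L R b hN hSp
  have hK2' : ∀ u ∈ Ds G rk H b, u ≠ b → ∀ w, w ∉ Ds G rk H b → G.Adj u w → (u = q → w ∈ Q) →
      ((R.pos u w < R.lo b ∧ ¬ Cov G rk (Ds G rk H b) R.mir (- R.pos u w)) ↔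
        (Anc H q L u b ∧ L.pos u w < L.lo b)) := by
    intro u hu hub w hw ha hQ
    have h1 := hK2 V G rk H q Q R.mir L.mir b (nh_mir hN) hSp' u hu hub w hw ha hQ
    simp only [Ct.mir, neg_lt_neg_iff] at h1
    exact h1
  have h1 := (hK2' z' hzD' hanc'.2 c' hcD' hzc' hzcQ').2 ⟨hanc'.1, by omega⟩
  -- the two feet are joined outside `D`
  have hcn : Cn G (Ds G rk H b)ᶜ c c' := by
    have e1 : Cn G (Ds G rk H b)ᶜ c w :=
      reach_cn (hnr c hcH hcD) (Anc.reach iR pR hcw)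
    have e2 : Cn G (Ds G rk H b)ᶜ a w := reach_cn hab haw
    have e3 : Cn G (Ds G rk H b)ᶜ a v := reach_cn hab hav
    have e4 : Cn G (Ds G rk H b)ᶜ c' v :=
      reach_cn (hnr c' hcH' hcD') (Anc.reach iL pL hcv')
    exact ((e1.trans' e2.symm').trans' e3).trans' e4.symm'
  have hDH : Ds G rk H b ⊆ H := fun u hu => hu.1
  have hDp : ∀ u ∈ Ds G rk H b, u ≠ q → R.par u ∈ Ds G rk H b := by
    intro u hu huq
    have h2 := iR.par u hu.1 huq
    exact ⟨h2.1, ReflTransGen.head ⟨h2.2, pR u hu.1 huq⟩ hu.2⟩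
  have hft : Ft G H (Ds G rk H b) q Q R (z, c) := by
    refine ⟨hzD, ?_, fun h => hcD h.2⟩
    have := iR.ch_dn pR hcH hcq
    rwa [hcp] at this
  have hft' : Ft G H (Ds G rk H b) q Q R (z', c') := by
    refine ⟨hzD', ⟨hzD'.1, hzc', hzcQ', fun hq h => ?_⟩, fun h => hcD' h.2⟩
    have h2 := pR z' hzD'.1 hq
    change c' = R.par z' at h
    rw [← h] at h2
    omega
  have hdisj : Disjoint (Ds G rk H b)ᶜ (Ds G rk H b) := disjoint_compl_left
  have hncov : ¬ Cov G rk (Ds G rk H b) R.mir (- R.pos z c) := by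
    rintro ⟨x0, hx0, y0, hy0, ha0, hp0, hc1, hc2⟩
    simp only [Ct.mir] at hp0 hc1 hc2
    have hd1 : Dn G H q Q R x0 y0 := by
      refine ⟨hx0.1, ha0.1, fun h => iR.QH y0 hy0.1 (h ▸ ha0.1), fun hq h => ?_⟩
      have h2 := pR x0 hx0.1 hq
      rw [← h] at h2
      have := ha0.2
      omega
    have hd2 : Dn G H q Q R y0 x0 := by
      refine ⟨hy0.1, ha0.1.symm, fun h => iR.QH x0 hx0.1 (h ▸ ha0.1.symm), fun _ h => hp0 h.symm⟩
    have hn1 : ¬ Ch H q R x0 y0 := fun h => hp0 h.2.2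
    have hn2 : ¬ Ch H q R y0 x0 := by
      intro h
      have h2 := pR x0 h.1 h.2.1
      rw [h.2.2] at h2
      have := ha0.2
      omega
    have hf1 : Ft G H (Ds G rk H b) q Q R (x0, y0) := ⟨hx0, hd1, fun h => hn1 h.1⟩
    have hf2 : Ft G H (Ds G rk H b) q Q R (y0, x0) := ⟨hy0, hd2, fun h => hn2 h.1⟩
    have hA := iR.nc (Ds G rk H b) hDH hqD hDp ∅ (Ds G rk H b)ᶜ (Set.empty_disjoint _)
      (x0, y0) (y0, x0) (z, c) (z', c') hf1 hf2 hft hft' (Or.inl ⟨rfl, hy0, rfl⟩)
      (Or.inr ⟨hdisj, hcn⟩)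
    have hB := iR.nc (Ds G rk H b) hDH hqD hDp (Ds G rk H b)ᶜ ∅ (Set.disjoint_empty _)
      (z', c') (z, c) (x0, y0) (y0, x0) hft' hft hf1 hf2 (Or.inr ⟨hdisj, hcn.symm'⟩)
      (Or.inl ⟨rfl, hy0, rfl⟩)
    have hC : ¬ (R.pos x0 y0 < R.pos z' c' ∧ R.pos z' c' < R.pos y0 x0) := by
      rintro ⟨k1, k2⟩
      apply h1.2
      refine ⟨x0, hx0, y0, hy0, ha0, hp0, ?_, ?_⟩ <;> simp only [Ct.mir] <;> omega
    simp only at hA hB
    -- equality of positions is impossible
    have hE : ∀ s r, Dn G H q Q R s r → ¬ Ch H q R s r → s ∈ Ds G rk H b → r ∈ Ds G rk H b →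
        R.pos z' c' ≠ R.pos s r := by
      intro s r hd hn hs hr' he
      by_cases hch : Ch H q R z' c'
      · have h2 := iR.ch c' hch.1 hch.2.1
        rw [hch.2.2] at h2
        have h3 := iR.dart_block pR hd hn hcH' (by omega) (by omega)
        exact hcD' ⟨hcH', (Anc.reach iR pR h3).trans hs.2⟩
      · have h2 := iR.pos_inj pR hft'.2.1 hch hd hn he
        have h3 : c' = r := h2.2
        exact hcD' (by rw [h3]; exact hr')
    have hE1 := hE x0 y0 hd1 hn1 hx0 hy0
    have hE2 := hE y0 x0 hd2 hn2 hy0 hx0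
    omega
  have h2 := (hK2' z hzD hzb c hcD hzc hzcQ).1 ⟨by omega, hncov⟩
  -- the `R`-path from `c` to `w` stays left of `b` in `L`
  have hstep : ∀ u u', Ar G rk u u' → u ∈ H → u' ∈ H → u' ∉ Ds G rk H b → u' ≠ q →
      (u = q → u' ∈ Q) → L.pos u u' < L.lo b → L.hi u' < L.lo b := by
    intro u u' ha hu hu' hud' huq' hQ hpos
    apply left_of iL pL hbH hu' hud'
    by_cases hp : L.par u' = u
    · have h3 := iL.ch u' hu' huq'
      rw [hp] at h3
      omega
    · have h3 := hN.ok.left u hu u' hu' ha hp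
      have h4 := (iL.dn u' u ⟨hu', ha.1.symm, fun h => absurd h huq', fun _ h => hp h.symm⟩).1
      omega
  have hall : ∀ u, Anc H q R c u → u ∉ Ds G rk H b ∧ u ∈ H ∧ L.hi u < L.lo b := by
    intro u hu
    induction hu with
    | refl => exact ⟨hcD, hcH, hstep z c ⟨hzc, hrkzc⟩ hzD.1 hcH hcD hcq hzcQ h2.2⟩
    | @tail u u' h3 h4 ih =>
      obtain ⟨h5, h6, h7⟩ := h4
      have hre : Re G rk c u' := Anc.reach iR pR (h3.tail ⟨h5, h6, h7⟩)
      have hud : u' ∉ Ds G rk H b := fun h => hnr c hcH hcD (hre.trans h.2)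
      have huq : u ≠ q := by
        rintro rfl
        exact ih.1 hqD
      have har : Ar G rk u u' := by
        have h8 := (iR.par u' h5 h6).2
        have h9 := pR u' h5 h6
        rw [h7] at h8 h9
        exact ⟨h8, h9⟩
      have hdn := (iL.dn u u' ⟨ih.2.1, har.1, fun h => absurd h huq, fun hq h => by
        have h8 := pL u ih.2.1 hq
        rw [← h] at h8
        have := har.2
        omega⟩).2
      exact ⟨hud, h5, hstep u u' har ih.2.1 h5 hud h6 (fun h => absurd h huq) (by omega)⟩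
  have := (hall w hcw).2.2
  omega

end Pool.BD
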